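import Pool.Agent.P.MP_618680_al.FH.Fit

set_option autoImplicit false

namespace Pool.Agent.Results.MP_618680_al.FittingHeight

/-- The Fitting height of a finite soluble group with an automorphism `φ`, `φ ^ n = 1`, that has at
most `m` fixed points is bounded in terms of `n` and `m`. -/
theorem result : ∀ n : ℕ, 0 < n → ∀ m : ℕ, ∃ h : ℕ, ∀ (G : Type) [Group G] [Finite G],
    Group.IsSolvable G → ∀ φ : MulAut G, φ ^ n = 1 → {x : G | φ x = x}.ncard ≤ m →
      ∃ H : Fin (h + 1) → Subgroup G,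
        H 0 = ⊥ ∧ H (Fin.last h) = ⊤ ∧ (∀ i : Fin (h + 1), (H i).Normal) ∧
        ∀ i : Fin h, H (Fin.castSucc i) ≤ H (Fin.succ i) ∧
          ∃ c : ℕ, (fun L : Subgroup G => ⁅L, H (Fin.succ i)⁆)^[c] (H (Fin.succ i))
            ≤ H (Fin.castSucc i) := by
  intro n hn m
  obtain ⟨h, hh⟩ := Pool.Agent.P.MP_618680_al.FH.fit_nresN n hn m
  exact ⟨h, fun G _ _ _ φ h1 h2 => Pool.Agent.P.MP_618680_al.FH.series_of_nresN (hh G φ h1 h2)⟩

end Pool.Agent.Results.MP_618680_al.FittingHeight
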