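import Pool.Agent.P.MP_618680_al.Main

set_option autoImplicit false

namespace Pool.Agent.Results.MP_618680_al.KrekninGroups

/-- For every `n` there is `P` such that a finite nilpotent group whose order has only prime
divisors above `P`, with a fixed-point-free automorphism of order dividing `n`, is soluble of
derived length at most `n * 2 ^ (n + 1)`. -/
theorem result : ∀ n : ℕ, 0 < n → ∃ P : ℕ, ∀ (G : Type) [Group G] [Finite G] [Group.IsNilpotent G],
    (∀ p : ℕ, p.Prime → p ∣ Nat.card G → P < p) → ∀ φ : MulAut G, φ ^ n = 1 →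
      (∀ x : G, φ x = x → x = 1) → derivedSeries G (n * 2 ^ (n + 1)) = ⊥ := by
  intro n hn
  obtain ⟨P, h⟩ := Pool.Agent.P.MP_618680_al.kreknin_group hn
  refine ⟨P, fun G _ _ _ hp φ h1 h2 => h G hp φ.toMonoidHom ?_ h2⟩
  have : ∀ i x, (⇑φ.toMonoidHom)^[i] x = (φ ^ i) x := by
    intro i x
    induction i with
    | zero => rfl
    | succ i ih => rw [Function.iterate_succ_apply', ih, pow_succ']; rfl
  funext x
  rw [this, h1]; rfl

end Pool.Agent.Results.MP_618680_al.KrekninGroups
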