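import Pool.Agent.P.MP_618680_al.FH.Loc

set_option autoImplicit false

namespace Pool.Agent.Results.MP_618680_al.LocallySoluble

/-- The question for locally finite groups with a locally soluble subgroup of finite index,
away from a finite set of primes. -/
theorem result : ∀ n : ℕ, 0 < n → ∃ P : ℕ, ∀ (G : Type) [Group G],
    (∀ s : Finset G, Finite (Subgroup.closure (s : Set G))) → ∀ g : G, g ^ n = 1 →
    (WellFoundedLT (Subgroup (Subgroup.centralizer ({g} : Set G))) ∧
      ∃ A : Subgroup (Subgroup.centralizer ({g} : Set G)),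
        A.FiniteIndex ∧ ∀ x ∈ A, ∀ y ∈ A, x * y = y * x) →
    (∃ N : Subgroup G, N.FiniteIndex ∧ ∀ s : Finset G, (s : Set G) ⊆ N →
      Group.IsSolvable (Subgroup.closure (s : Set G))) →
    (∀ p : ℕ, p.Prime → (p ≤ P ∨ ∃ Q : Subgroup G, Q ≤ Subgroup.centralizer ({g} : Set G) ∧
        IsPGroup p Q ∧ Infinite Q) →
      ∀ Q : Subgroup G, IsPGroup p Q → ∃ S : Subgroup Q, S.FiniteIndex ∧ Group.IsSolvable S) →
    ∃ H : Subgroup G, H.FiniteIndex ∧ Group.IsSolvable H :=
  fun _ hn => Pool.Agent.P.MP_618680_al.FH.hartley_locSol hn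

end Pool.Agent.Results.MP_618680_al.LocallySoluble
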